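import Pool.Agent.Run7.h638.WR.Iface

/-!
# WR, piece SRCH (helper973)
-/

set_option autoImplicit false

namespace Pool.Agent.Run7.h973.WR

open Pool.Agent.Run7.h638.WR

/-- the disjunction of a Boolean function over the first `k` members of a list -/
def disj (g : List Win → Bool) (l : List (List Win)) (k : ℕ) : Bool :=
  Nat.rec false (fun y IH => IH || Option.casesOn (l[y]?) false g) k

theorem disj_iff (g : List Win → Bool) (l : List (List Win)) (k : ℕ) :
    disj g l k = true ↔ ∃ y < k, ∃ Q, l[y]? = some Q ∧ g Q = true := by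
  induction k with
  | zero => simp [disj]
  | succ k ih =>
    have h1 : disj g l (k + 1) = (disj g l k || Option.casesOn (l[k]?) false g) := rfl
    rw [h1, Bool.or_eq_true, ih]
    constructor
    · rintro (⟨y, hy, Q, hQ⟩ | h)
      · exact ⟨y, by omega, Q, hQ⟩
      · cases hk : l[k]? with
        | none => rw [hk] at h; simp at h
        | some Q => rw [hk] at h; exact ⟨k, by omega, Q, hk, h⟩
    · rintro ⟨y, hy, Q, hQ, hg⟩
      rcases Nat.lt_succ_iff_lt_or_eq.1 hy with h | h
      · exact Or.inl ⟨y, h, Q, hQ, hg⟩
      · subst h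
        right
        rw [hQ]
        exact hg

theorem computable_disj {g : List Win → Bool} (hg : Computable g) :
    Computable (fun l : List (List Win) => disj g l l.length) := by
  refine Computable.nat_rec (f := fun l : List (List Win) => l.length) (g := fun _ => false)
    (h := fun l p => p.2 || Option.casesOn (l[p.1]?) false g)
    Computable.list_length (Computable.const false) ?_
  refine Primrec.or.to_comp.comp₂ (Computable.snd.comp Computable.snd).to₂ ?_
  refine Computable.option_casesOn
    (Computable.list_getElem?.comp Computable.fst (Computable.fst.comp Computable.snd))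
    (Computable.const false) ?_
  exact (hg.comp Computable.snd).to₂

theorem t_SRCH : SRCH := by
  intro hC3 ok cd s D hok hcd hD
  obtain ⟨hdec, hD⟩ := hD
  have hp : PrimrecPred (fun Q : List Win => ∃ w ∈ Q, w.1.1 = s) := by
    refine PrimrecPred.exists_mem_list ?_
    exact Primrec.eq.comp (Primrec.fst.comp Primrec.fst) (Primrec.const s)
  obtain ⟨hdec2, hp2⟩ := hp
  let g : List Win → Bool := fun Q => decide (∃ w ∈ Q, w.1.1 = s) && decide (D (cd Q))
  have hg : Computable g :=
    Primrec.and.to_comp.comp hp2.to_comp (hD.comp hcd)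
  refine ⟨fun n => disj g (ok n).sublists' (ok n).sublists'.length, ?_, ?_⟩
  · exact (computable_disj hg).comp ((hC3 Win inferInstance).to_comp.comp hok)
  · intro n
    rw [disj_iff]
    constructor
    · rintro ⟨y, _, Q, hQ, hg'⟩
      have h1 : Q ∈ (ok n).sublists' := List.mem_of_getElem? hQ
      simp only [g, Bool.and_eq_true, decide_eq_true_eq] at hg'
      exact ⟨Q, List.mem_sublists'.1 h1, hg'.1, hg'.2⟩
    · rintro ⟨Q, hQ, h1, h2⟩
      obtain ⟨y, hy⟩ := List.mem_iff_getElem?.1 (List.mem_sublists'.2 hQ)
      refine ⟨y, ?_, Q, hy, ?_⟩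
      · exact (List.getElem?_eq_some_iff.1 hy).1
      · simp only [g, Bool.and_eq_true, decide_eq_true_eq]
        exact ⟨h1, h2⟩

end Pool.Agent.Run7.h973.WR
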