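import Pool.Agent.Run7.h638.WR.Iface

/-!
# WR, pieces YC, YA, N3 (helper973)
-/

set_option autoImplicit false

namespace Pool.Agent.Run7.h973.WR

open Pool.Agent.Run7.h638.WR

theorem val_add_one' {n : ℕ} [NeZero n] (i : ZMod n) : (i + 1).val = (i.val + 1) % n := by
  rw [ZMod.val_add, ZMod.val_one_eq_one_mod, Nat.add_mod_mod]

theorem t_YC : YC := by
  intro n m hn hm θ P h
  refine ⟨fun i j => θ i.val j.val, ?_, ?_⟩
  · change θ (0 : ZMod n).val (0 : ZMod m).val = θ 0 0
    rw [ZMod.val_zero, ZMod.val_zero]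
  · intro i j
    have h1 := h i.val (ZMod.val_lt i) j.val (ZMod.val_lt j)
    change P ((θ i.val j.val, θ i.val (j + 1).val),
      (θ (i + 1).val j.val, θ (i + 1).val (j + 1).val))
    rw [val_add_one' i, val_add_one' j]
    exact h1

theorem t_YA : YA := by
  intro K Γ Q _ _ prog c0 c L hr
  have h1 : ∃ (t : ℕ) (f : ℕ → Q × (K → List Γ)), f 0 = c0 ∧ f t = c ∧
      ∀ i < t, stepM prog (f i) = some (f (i + 1)) := by
    induction hr with
    | refl => exact ⟨0, fun _ => c0, rfl, rfl, fun i hi => absurd hi (Nat.not_lt_zero i)⟩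
    | @tail b c' _ hbc ih =>
      obtain ⟨t, f, h0, ht, hs⟩ := ih
      refine ⟨t + 1, fun i => if i ≤ t then f i else c', ?_, ?_, ?_⟩
      · simp [h0]
      · simp
      · intro i hi
        rcases Nat.lt_succ_iff_lt_or_eq.1 hi with h | h
        · simp only [if_pos h.le, if_pos (Nat.succ_le_of_lt h)]
          exact hs i h
        · subst h
          simp only [if_pos le_rfl, if_neg (Nat.not_succ_le_self i)]
          rw [ht]
          exact hbc
  obtain ⟨t, f, h0, ht, hs⟩ := h1
  have h2 : ∀ i, ∃ w, ∀ k, ((f i).2 k).length ≤ w := by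
    intro i
    have := Fintype.ofFinite K
    exact ⟨∑ k, ((f i).2 k).length, fun k =>
      Finset.single_le_sum (f := fun k => ((f i).2 k).length) (fun _ _ => Nat.zero_le _)
        (Finset.mem_univ k)⟩
  choose w hw using h2
  refine ⟨t, L + 1 + ∑ i ∈ Finset.range (t + 1), w i, f, by omega, by omega, h0, ht, hs, ?_⟩
  intro i hi k
  have h3 : w i ≤ ∑ i ∈ Finset.range (t + 1), w i :=
    Finset.single_le_sum (f := w) (fun _ _ => Nat.zero_le _) (Finset.mem_range.2 (by omega))
  have h4 := hw i k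
  omega

theorem t_N3 : N3 := by
  intro K Γ Q _ prog θ θ' c hV hrow hstep hacc
  obtain ⟨⟨s, h0⟩, h1⟩ := hrow
  have hc1 : ∃ s, θ 1 = .cell s c.1 (fun k => (c.2 k)[1 - 1]?) := by
    rcases h1 with h1 | ⟨w, hw, h1, -, -⟩
    · exact h1 1 le_rfl
    · exact h1 1 le_rfl hw
  obtain ⟨s', hc1⟩ := hc1
  have hv := hV 0
  rw [h0, hc1] at hv
  cases hp : prog c.1 with
  | push k o q =>
    simp only [stepM, hp] at hstep
    simp at hstep
  | pop k f =>
    cases hk : c.2 k with
    | cons o z =>
      simp only [stepM, hp, hk] at hstep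
      simp at hstep
    | nil =>
      simp only [VR, hp] at hv
      obtain ⟨m, o, hm, -⟩ := hv
      rw [hk] at hm
      simp at hm
  | halt acc =>
    cases acc with
    | true => exact hacc hp
    | false =>
      simp only [VR, hp] at hv

end Pool.Agent.Run7.h973.WR
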